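import Pool.Agent.Run7.h929.IG.Gen

/-!
# The relative algebraic closure in a finite Galois extension
-/

set_option autoImplicit false

namespace Run7.h929.IG

open Module IntermediateField
open scoped TensorProduct

theorem fin_closure {K M M' : Type} [Field K] [Field M] [Field M'] [Algebra K M] [Algebra M M']
    [Algebra K M'] [IsScalarTower K M M'] [FiniteDimensional M M'] [IsGalois M M']
    [FiniteDimensional K (algebraicClosure K M)] :
    FiniteDimensional K (algebraicClosure K M') ∧
      finrank K (algebraicClosure K M') ≤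
        Nat.card (M' ≃ₐ[M] M') * finrank K (algebraicClosure K M) := by
  classical
  let N := algebraicClosure K M'
  let r : (M' ≃ₐ[M] M') →* (N ≃ₐ[K] N) :=
    { toFun := fun σ => algebraicClosure.algEquivOfAlgEquiv (σ.restrictScalars K)
      map_one' := by
        apply AlgEquiv.ext
        intro x
        apply Subtype.ext
        rfl
      map_mul' := fun σ τ => by
        apply AlgEquiv.ext
        intro x
        apply Subtype.ext
        rfl }
  have hr : ∀ (σ : M' ≃ₐ[M] M') (x : N), (r σ x : M') = σ x := fun _ _ => rfl
  let S : IntermediateField K N := fixedField r.range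
  have hRf : Finite r.range := inferInstance
  have hSN : FiniteDimensional S N :=
    (inferInstance : FiniteDimensional (FixedPoints.subfield r.range N) N)
  have hcard : finrank S N ≤ Nat.card (M' ≃ₐ[M] M') := by
    have h1 : finrank S N ≤ Nat.card r.range := by
      let _ : Fintype r.range := Fintype.ofFinite _
      rw [Nat.card_eq_fintype_card]
      exact FixedPoints.finrank_le_card r.range N
    exact h1.trans (Nat.card_le_card_of_surjective r.rangeRestrict r.rangeRestrict_surjective)
  let m : M →ₐ[K] M' := IsScalarTower.toAlgHom K M M'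
  let e : M ≃ₐ[K] m.fieldRange := AlgEquiv.ofInjectiveField m
  have he : ∀ z : m.fieldRange, m (e.symm z) = z.1 := by
    intro z
    have h3 : e (e.symm z) = z := e.apply_symm_apply z
    exact congrArg Subtype.val h3
  have h2 : ∀ x : S, ((x : N) : M') ∈ m.fieldRange := by
    intro x
    have h3 : ((x : N) : M') ∈ (⊥ : IntermediateField M M') := by
      rw [IsGalois.mem_bot_iff_fixed]
      intro σ
      have h4 := (mem_fixedField_iff _ _).1 x.2 (r σ) ⟨σ, rfl⟩
      rw [← hr, h4]
    obtain ⟨c, hc⟩ := IntermediateField.mem_bot.1 h3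
    exact ⟨c, hc⟩
  have h3 : ∀ x : S, e.symm ⟨((x : N) : M'), h2 x⟩ ∈ algebraicClosure K M := by
    intro x
    rw [mem_algebraicClosure_iff]
    have h4 : IsAlgebraic K (m (e.symm ⟨((x : N) : M'), h2 x⟩)) := by
      rw [he]
      exact mem_algebraicClosure_iff.1 (x : N).2
    exact (isAlgebraic_algHom_iff m m.injective).1 h4
  let f : S →ₗ[K] algebraicClosure K M :=
    { toFun := fun x => ⟨e.symm ⟨((x : N) : M'), h2 x⟩, h3 x⟩
      map_add' := fun x y => Subtype.ext (m.injective (by
        show m (e.symm _) = m (e.symm _ + e.symm _)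
        rw [map_add, he, he, he]
        rfl))
      map_smul' := fun c x => Subtype.ext (m.injective (by
        show m (e.symm _) = m (c • e.symm _)
        rw [map_smul, he, he]
        rfl)) }
  have hf : Function.Injective f := by
    intro x y exy
    have h5 : e.symm ⟨((x : N) : M'), h2 x⟩ = e.symm ⟨((y : N) : M'), h2 y⟩ :=
      congrArg Subtype.val exy
    have h6 := congrArg Subtype.val (e.symm.injective h5)
    exact Subtype.ext (Subtype.ext h6)
  have hKS : FiniteDimensional K S := FiniteDimensional.of_injective f hf
  have hle : finrank K S ≤ finrank K (algebraicClosure K M) :=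
    LinearMap.finrank_le_finrank_of_injective hf
  refine ⟨FiniteDimensional.trans K S N, ?_⟩
  rw [← finrank_mul_finrank K S N, mul_comm]
  exact Nat.mul_le_mul hcard hle

theorem pow_iter {L : Type} [Monoid L] {y : L} {q a : ℕ} (h : y ^ q ^ a = y) (b : ℕ) :
    y ^ q ^ (a * b) = y := by
  induction b with
  | zero => rw [mul_zero, pow_zero, pow_one]
  | succ b ih => rw [mul_add, mul_one, pow_add, pow_mul, ih, h]

/-- the elements of `L` which are algebraic over `κ` -/
theorem const_bound' {κ L : Type} [Field κ] [Finite κ] [Field L] [Algebra (RatFunc κ) L]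
    [FiniteDimensional (RatFunc κ) (algebraicClosure (RatFunc κ) L)] {D : ℕ}
    (hD : finrank (RatFunc κ) (algebraicClosure (RatFunc κ) L) ≤ D) {y : L} {n : ℕ} (hn : 2 ≤ n)
    (hy : y ^ n = y) : y ^ (Nat.card κ ^ D.factorial) = y := by
  have hint : IsAlgebraic (RatFunc κ) y := by
    refine ⟨Polynomial.X ^ n - Polynomial.X, ?_, by simp [hy]⟩
    exact (Polynomial.monic_X_pow_sub
      (by rw [Polynomial.degree_X]; exact_mod_cast hn)).ne_zero
  have h1 : y ∈ algebraicClosure (RatFunc κ) L := mem_algebraicClosure_iff.2 hint
  have h2 := const_bound (κ := κ) (L := algebraicClosure (RatFunc κ) L)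
    (y := ⟨y, h1⟩) hn (Subtype.ext hy)
  have h3 : y ^ (Nat.card κ ^ (finrank (RatFunc κ) (algebraicClosure (RatFunc κ) L)).factorial) =
      y := congrArg Subtype.val h2
  obtain ⟨b, hb⟩ := Nat.factorial_dvd_factorial hD
  rw [hb]
  exact pow_iter h3 b

end Run7.h929.IG
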