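import Pool.Agent.Run7.h929.IG.Core

/-!
# Base change of a Galois extension, and the constants of a function field
-/

set_option autoImplicit false

namespace Run7.h929.IG

open Module IntermediateField
open scoped TensorProduct

theorem tensor_injective {E M M' L : Type} [Field E] [Field M] [Field M'] [Field L] [Algebra E M]
    [Algebra E M'] [Algebra E L] (f : M →ₐ[E] M') :
    Function.Injective (Algebra.TensorProduct.map f (AlgHom.id E L)) := by
  have h := Module.Flat.rTensor_preserves_injective_linearMap (M := L) f.toLinearMap f.injective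
  exact h

/-- base change to `E` -/
theorem base_change {K E M F G : Type} [Field K] [Field E] [Field M] [Field F] [Group G]
    [Finite G] [Algebra K E] [Algebra E M] [Algebra K M] [IsScalarTower K E M] [Algebra K F]
    [FiniteDimensional K E] [FiniteDimensional K F] [IsGalois K F]
    (hG : Nonempty ((F ≃ₐ[K] F) ≃* G)) (hMF : IsField (M ⊗[K] F)) :
    ∃ (L : Type) (_ : Field L) (_ : Algebra E L), FiniteDimensional E L ∧ IsGalois E L ∧
      Nonempty ((L ≃ₐ[E] L) ≃* G) ∧ IsField (M ⊗[E] L) := by
  classical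
  obtain ⟨γ⟩ := hG
  have hdomM : IsDomain (M ⊗[K] F) := hMF.isDomain
  have hdom : IsDomain (E ⊗[K] F) :=
    Function.Injective.isDomain
      (Algebra.TensorProduct.map (IsScalarTower.toAlgHom K E M) (AlgHom.id K F)).toRingHom
      (tensor_injective (IsScalarTower.toAlgHom K E M))
  have hfield : IsField (E ⊗[K] F) :=
    Algebra.TensorProduct.isField_of_isAlgebraic K E F (Or.inl inferInstance)
  let L := FractionRing (E ⊗[K] F)
  have hbij : Function.Bijective (algebraMap (E ⊗[K] F) L) :=
    IsField.localization_map_bijective (M := nonZeroDivisors (E ⊗[K] F))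
      (fun h => zero_notMem_nonZeroDivisors h) hfield
  let e : (E ⊗[K] F) ≃ₐ[E] L :=
    AlgEquiv.ofBijective (IsScalarTower.toAlgHom E (E ⊗[K] F) L) hbij
  have hfd : FiniteDimensional E L := e.toLinearEquiv.finiteDimensional
  have hrank : finrank E L = finrank K F := by
    rw [← e.toLinearEquiv.finrank_eq, Module.finrank_baseChange]
  let ψ : (F ≃ₐ[K] F) →* ((E ⊗[K] F) ≃ₐ[E] (E ⊗[K] F)) :=
    { toFun := fun σ => Algebra.TensorProduct.congr (AlgEquiv.refl : E ≃ₐ[E] E) σ
      map_one' := by
        apply AlgEquiv.ext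
        intro x
        induction x using TensorProduct.induction_on with
        | zero => rw [map_zero, map_zero]
        | tmul a b => rfl
        | add a b ha hb => rw [map_add, map_add, ha, hb]
      map_mul' := fun σ τ => by
        apply AlgEquiv.ext
        intro x
        induction x using TensorProduct.induction_on with
        | zero => rw [map_zero, map_zero]
        | tmul a b => rfl
        | add a b ha hb => rw [map_add, map_add, ha, hb] }
  have hψ : Function.Injective ψ := by
    intro σ τ h
    apply AlgEquiv.ext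
    intro x
    have h1 : ψ σ ((1 : E) ⊗ₜ[K] x) = ψ τ ((1 : E) ⊗ₜ[K] x) := by rw [h]
    have h2 : ∀ ρ : F ≃ₐ[K] F, ψ ρ ((1 : E) ⊗ₜ[K] x) = (1 : E) ⊗ₜ[K] ρ x := fun ρ => rfl
    rw [h2, h2] at h1
    exact (Algebra.TensorProduct.includeRight (R := K) (A := E) (B := F)).injective h1
  let χ : (F ≃ₐ[K] F) →* (L ≃ₐ[E] L) := (AlgEquiv.autCongr e).toMonoidHom.comp ψ
  have hχ : Function.Injective χ := (AlgEquiv.autCongr e).injective.comp hψ
  have hcard : Nat.card (F ≃ₐ[K] F) = finrank E L := by
    rw [hrank, IsGalois.card_aut_eq_finrank K F]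
  have hle : Nat.card (L ≃ₐ[E] L) ≤ Nat.card (F ≃ₐ[K] F) := by
    rw [hcard, Nat.card_eq_fintype_card]
    exact AlgEquiv.card_le
  have hge : Nat.card (F ≃ₐ[K] F) ≤ Nat.card (L ≃ₐ[E] L) := Nat.card_le_card_of_injective χ hχ
  have hχb : Function.Bijective χ :=
    (Nat.bijective_iff_injective_and_card χ).2 ⟨hχ, le_antisymm hge hle⟩
  refine ⟨L, inferInstance, inferInstance, hfd, ?_, ⟨(MulEquiv.ofBijective χ hχb).symm.trans γ⟩, ?_⟩
  · apply IsGalois.of_card_aut_eq_finrank
    rw [← hcard]
    exact le_antisymm hle hge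
  · have e1 : (M ⊗[E] (E ⊗[K] F)) ≃ₐ[M] M ⊗[K] F :=
      Algebra.TensorProduct.cancelBaseChange K E M M F
    have e2 : (M ⊗[E] (E ⊗[K] F)) ≃ₐ[M] M ⊗[E] L :=
      Algebra.TensorProduct.congr AlgEquiv.refl e
    exact (e2.symm.trans e1).toMulEquiv.isField hMF

/-- an element of `L` with `1 ⊗ y = r ⊗ 1` is in `E` -/
theorem mem_base {E M L : Type} [Field E] [Field M] [Field L] [Algebra E M] [Algebra E L]
    {y : L} {r : M} (h : (1 : M) ⊗ₜ[E] y = r ⊗ₜ[E] (1 : L)) :
    y ∈ Set.range (algebraMap E L) := by
  by_contra hy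
  have h1 : y ∉ Submodule.span E {(1 : L)} := by
    intro h2
    obtain ⟨c, hc⟩ := Submodule.mem_span_singleton.1 h2
    exact hy ⟨c, by rw [← hc, Algebra.smul_def, mul_one]⟩
  obtain ⟨g, hg, hle⟩ := Submodule.exists_le_ker_of_notMem h1
  have hg1 : g 1 = 0 := hle (Submodule.mem_span_singleton_self _)
  have h2 := congrArg (fun t => TensorProduct.rid E M (LinearMap.lTensor M g t)) h
  simp only [LinearMap.lTensor_tmul, TensorProduct.rid_tmul, hg1, zero_smul] at h2
  rw [Algebra.smul_def, mul_one] at h2
  exact hg ((map_eq_zero _).1 h2)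

/-- the elements of a finite extension of `κ(X)` which are algebraic over `κ` -/
theorem const_bound {κ L : Type} [Field κ] [Finite κ] [Field L] [Algebra (RatFunc κ) L]
    [FiniteDimensional (RatFunc κ) L] {y : L} {n : ℕ} (hn : 2 ≤ n) (hy : y ^ n = y) :
    y ^ (Nat.card κ ^ (finrank (RatFunc κ) L).factorial) = y := by
  classical
  let _ : Algebra κ L := ((algebraMap (RatFunc κ) L).comp (algebraMap κ (RatFunc κ))).toAlgebra
  let _ : Algebra (Polynomial κ) L :=
    ((algebraMap (RatFunc κ) L).comp (algebraMap (Polynomial κ) (RatFunc κ))).toAlgebra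
  have _ : IsScalarTower κ (RatFunc κ) L := IsScalarTower.of_algebraMap_eq (fun _ => rfl)
  have _ : IsScalarTower (Polynomial κ) (RatFunc κ) L :=
    IsScalarTower.of_algebraMap_eq (fun _ => rfl)
  have _ : IsScalarTower κ (Polynomial κ) L := by
    refine IsScalarTower.of_algebraMap_eq (fun c => ?_)
    show algebraMap (RatFunc κ) L (algebraMap κ (RatFunc κ) c) =
      algebraMap (RatFunc κ) L (algebraMap (Polynomial κ) (RatFunc κ) (algebraMap κ (Polynomial κ) c))
    rw [← IsScalarTower.algebraMap_apply κ (Polynomial κ) (RatFunc κ)]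
  have htf : Module.IsTorsionFree (Polynomial κ) L := by
    rw [Module.isTorsionFree_iff_algebraMap_injective]
    exact (algebraMap (RatFunc κ) L).injective.comp
      (IsFractionRing.injective (Polynomial κ) (RatFunc κ))
  have hint : IsIntegral κ y := by
    refine ⟨Polynomial.X ^ n - Polynomial.X, ?_, ?_⟩
    · exact Polynomial.monic_X_pow_sub (by rw [Polynomial.degree_X]; exact_mod_cast hn)
    · rw [← Polynomial.aeval_def]
      simp [hy]
  have hint2 : IsIntegral (Polynomial κ) y := hint.tower_top
  set f := minpoly κ y with hf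
  set P := minpoly (Polynomial κ) y with hP
  have hPm : P.Monic := minpoly.monic hint2
  have hdvd : P ∣ f.map (algebraMap κ (Polynomial κ)) := by
    apply minpoly.isIntegrallyClosed_dvd hint2
    rw [Polynomial.aeval_map_algebraMap]
    exact minpoly.aeval κ y
  let ev : Polynomial κ →+* κ := Polynomial.evalRingHom 0
  have hdvd2 : P.map ev ∣ f := by
    have h1 := Polynomial.map_dvd ev hdvd
    rw [Polynomial.map_map] at h1
    have h2 : ev.comp (algebraMap κ (Polynomial κ)) = RingHom.id κ := by
      ext c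
      show Polynomial.eval 0 (Polynomial.C c) = c
      rw [Polynomial.eval_C]
    rwa [h2, Polynomial.map_id] at h1
  have hdeg : (P.map ev).natDegree = P.natDegree := hPm.natDegree_map ev
  have hPpos : 0 < P.natDegree := minpoly.natDegree_pos hint2
  have hirr : Irreducible f := minpoly.irreducible hint
  have hnu : ¬ IsUnit (P.map ev) := by
    intro h
    have := Polynomial.natDegree_eq_zero_of_isUnit h
    omega
  have hdvd3 : f ∣ P.map ev := by
    rcases hirr.dvd_iff.1 hdvd2 with h | h
    · exact absurd h hnu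
    · exact h.dvd
  have hfd : f.natDegree ≤ P.natDegree := by
    rw [← hdeg]
    exact Polynomial.natDegree_le_of_dvd hdvd3 ((hPm.map ev).ne_zero)
  have hPK : P.natDegree ≤ finrank (RatFunc κ) L := by
    have h1 : minpoly (RatFunc κ) y = P.map (algebraMap (Polynomial κ) (RatFunc κ)) :=
      minpoly.isIntegrallyClosed_eq_field_fractions' (RatFunc κ) hint2
    have h2 : (minpoly (RatFunc κ) y).natDegree = P.natDegree := by
      rw [h1]
      exact hPm.natDegree_map _
    rw [← h2]
    exact minpoly.natDegree_le y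
  have hm0 : 0 < f.natDegree := minpoly.natDegree_pos hint
  have hm : f.natDegree ∣ (finrank (RatFunc κ) L).factorial :=
    Nat.dvd_factorial hm0 (hfd.trans hPK)
  obtain ⟨j, hj⟩ := hm
  -- the finite field generated by `y`
  have hfdy : FiniteDimensional κ κ⟮y⟯ := IntermediateField.adjoin.finiteDimensional hint
  have hrk : finrank κ κ⟮y⟯ = f.natDegree := IntermediateField.adjoin.finrank hint
  have hfin : Finite κ⟮y⟯ := Module.finite_of_finite κ
  let _ : Fintype κ⟮y⟯ := Fintype.ofFinite _
  let _ : Fintype κ := Fintype.ofFinite _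
  have hcard : Fintype.card κ⟮y⟯ = Nat.card κ ^ f.natDegree := by
    rw [Module.card_eq_pow_finrank (K := κ) (V := κ⟮y⟯), hrk, Nat.card_eq_fintype_card]
  have hz : (⟨y, IntermediateField.mem_adjoin_simple_self κ y⟩ : κ⟮y⟯) ^
      (Fintype.card κ⟮y⟯) ^ j = ⟨y, IntermediateField.mem_adjoin_simple_self κ y⟩ :=
    FiniteField.pow_card_pow j _
  have hz2 := congrArg Subtype.val hz
  have hz3 : y ^ (Fintype.card κ⟮y⟯) ^ j = y := hz2
  rw [hcard, ← pow_mul, ← hj] at hz3
  exact hz3

end Run7.h929.IG
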