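import Mathlib

/-!
# Galois groups for free over finite extensions
-/

set_option autoImplicit false

namespace Run7.h929.IG

open Module IntermediateField
open scoped TensorProduct

/-- `G` is the group of a finite Galois extension of `K` -/
def Occurs (K G : Type) [Field K] [Group G] : Prop :=
  ∃ (L : Type) (_ : Field L) (_ : Algebra K L), FiniteDimensional K L ∧ IsGalois K L ∧
    Nonempty ((L ≃ₐ[K] L) ≃* G)

/-- a subgroup of small index of a power maps onto one of the factors -/
theorem pigeon {G : Type} [Group G] [Finite G] {k : ℕ} (H : Subgroup (Fin k → G))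
    (hH : H.index < 2 ^ k) : ∃ i : Fin k, H.map (Pi.evalMonoidHom (fun _ : Fin k => G) i) = ⊤ := by
  classical
  by_contra hcon
  push Not at hcon
  set P : Fin k → Subgroup G := fun i => H.map (Pi.evalMonoidHom (fun _ : Fin k => G) i) with hP
  have hf : Finite (Fin k → G) := inferInstance
  have hinj : Nat.card H ≤ Nat.card (∀ i, P i) := by
    refine Nat.card_le_card_of_injective
      (fun h i => (⟨h.1 i, ⟨h.1, h.2, rfl⟩⟩ : P i)) ?_
    intro h h' e
    apply Subtype.ext
    funext i
    have := congrFun e i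
    exact congrArg Subtype.val this
  have h2 : ∀ i, 2 * Nat.card (P i) ≤ Nat.card G := by
    intro i
    have h3 := (P i).index_mul_card
    have h4 : (P i).index ≠ 1 := fun h => hcon i (Subgroup.index_eq_one.1 h)
    have h5 : (P i).index ≠ 0 := Subgroup.index_ne_zero_of_finite
    have h6 : 2 ≤ (P i).index := by omega
    calc 2 * Nat.card (P i) ≤ (P i).index * Nat.card (P i) := Nat.mul_le_mul_right _ h6
      _ = Nat.card G := h3
  have h3 : 2 ^ k * Nat.card (∀ i, P i) ≤ Nat.card (Fin k → G) := by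
    rw [Nat.card_pi, Nat.card_pi]
    calc 2 ^ k * ∏ i, Nat.card (P i) = ∏ i : Fin k, (2 * Nat.card (P i)) := by
          rw [Finset.prod_mul_distrib, Finset.prod_const, Finset.card_univ, Fintype.card_fin]
      _ ≤ ∏ _i : Fin k, Nat.card G := Finset.prod_le_prod' fun i _ => h2 i
  have h4 := H.index_mul_card
  have h5 : 0 < Nat.card H := Nat.card_pos
  have h6 : 2 ^ k * Nat.card H ≤ H.index * Nat.card H :=
    (Nat.mul_le_mul_left _ hinj).trans (h3.trans h4.ge)
  exact absurd (Nat.le_of_mul_le_mul_right h6 h5) (not_le.2 hH)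

/-- One of the `k` extensions is linearly disjoint from `M`. -/
theorem exists_disjoint {K G M : Type} [Field K] [Group G] [Finite G] [Field M] [Algebra K M]
    [FiniteDimensional K M] {k : ℕ} (hk : finrank K M < 2 ^ k) (h : Occurs K (Fin k → G)) :
    ∃ (F : Type) (_ : Field F) (_ : Algebra K F), FiniteDimensional K F ∧ IsGalois K F ∧
      Nonempty ((F ≃ₐ[K] F) ≃* G) ∧ IsField (M ⊗[K] F) := by
  obtain ⟨Λ, _, _, _, _, ⟨φ⟩⟩ := h
  let Ω := AlgebraicClosure M
  let j : Λ →ₐ[K] Ω := IsAlgClosed.lift
  let m : M →ₐ[K] Ω := IsScalarTower.toAlgHom K M Ω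
  let D : IntermediateField K Λ := m.fieldRange.comap j
  have hm : FiniteDimensional K m.fieldRange :=
    (AlgEquiv.ofInjectiveField m).toLinearEquiv.finiteDimensional
  have hD : finrank K D ≤ finrank K M := by
    have h1 : finrank K m.fieldRange = finrank K M :=
      (AlgEquiv.ofInjectiveField m).toLinearEquiv.finrank_eq.symm
    rw [← h1]
    have h2 : ∀ x : D, j x.1 ∈ m.fieldRange := fun x => x.2
    let f : D →ₗ[K] m.fieldRange :=
      { toFun := fun x => ⟨j x.1, h2 x⟩
        map_add' := fun x y => Subtype.ext (map_add j x.1 y.1)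
        map_smul' := fun c x => Subtype.ext (map_smul j c x.1) }
    refine LinearMap.finrank_le_finrank_of_injective (f := f) ?_
    intro x y e
    apply Subtype.ext
    exact j.injective (congrArg Subtype.val e)
  have hidx : (D.fixingSubgroup.map φ.toMonoidHom).index < 2 ^ k := by
    have h1 : (D.fixingSubgroup.map φ.toMonoidHom).index = D.fixingSubgroup.index :=
      Subgroup.index_map_of_bijective φ.bijective _
    have h2 : D.fixingSubgroup.index = finrank K D := by
      have h3 := D.fixingSubgroup.index_mul_card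
      have h4 : Nat.card D.fixingSubgroup = finrank D Λ := IsGalois.card_fixingSubgroup_eq_finrank D
      have h5 : Nat.card (Λ ≃ₐ[K] Λ) = finrank K Λ := IsGalois.card_aut_eq_finrank K Λ
      rw [h4, h5, ← finrank_mul_finrank K D Λ] at h3
      exact Nat.eq_of_mul_eq_mul_right finrank_pos h3
    rw [h1, h2]
    exact hD.trans_lt hk
  obtain ⟨i, hi⟩ := pigeon _ hidx
  let π : (Λ ≃ₐ[K] Λ) →* G := (Pi.evalMonoidHom (fun _ : Fin k => G) i).comp φ.toMonoidHom
  have hπ : Function.Surjective π := by
    intro g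
    obtain ⟨x, hx⟩ := φ.surjective (fun _ => g)
    refine ⟨x, ?_⟩
    show φ x i = g
    rw [hx]
  let F : IntermediateField K Λ := fixedField π.ker
  have hFn : IsGalois K F := IsGalois.of_fixedField_normal_subgroup π.ker
  have hFe : Nonempty ((F ≃ₐ[K] F) ≃* G) :=
    ⟨(IsGalois.normalAutEquivQuotient π.ker).symm.trans
      (QuotientGroup.quotientKerEquivOfSurjective π hπ)⟩
  -- `F ⊓ D = ⊥`
  have hFD : ∀ x, x ∈ F → x ∈ D → x ∈ (⊥ : IntermediateField K Λ) := by
    intro x hxF hxD
    rw [IsGalois.mem_bot_iff_fixed]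
    intro σ
    have h1 : π σ ∈ (D.fixingSubgroup.map φ.toMonoidHom).map
        (Pi.evalMonoidHom (fun _ : Fin k => G) i) := by
      rw [hi]
      exact Subgroup.mem_top _
    obtain ⟨_, ⟨τ, hτ, rfl⟩, hτ2⟩ := h1
    have h2 : τ⁻¹ * σ ∈ π.ker := by
      rw [MonoidHom.mem_ker, map_mul, map_inv]
      have h3 : π τ = π σ := hτ2
      rw [h3, inv_mul_cancel]
    have h3 : (τ⁻¹ * σ) x = x := (mem_fixedField_iff _ _).1 hxF _ h2
    have h4 : τ x = x := (IntermediateField.mem_fixingSubgroup_iff _ _).1 hτ x hxD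
    have h5 : τ ((τ⁻¹ * σ) x) = σ x := by
      rw [← AlgEquiv.mul_apply, mul_inv_cancel_left]
    rw [← h5, h3, h4]
  refine ⟨F, inferInstance, inferInstance, inferInstance, hFn, hFe, ?_⟩
  -- linear disjointness
  let f : F →ₐ[K] Ω := j.comp F.val
  have hf : FiniteDimensional K f.fieldRange :=
    (AlgEquiv.ofInjectiveField f).toLinearEquiv.finiteDimensional
  have hfG : IsGalois K f.fieldRange := IsGalois.of_algEquiv (AlgEquiv.ofInjectiveField f)
  have hinf : f.fieldRange ⊓ m.fieldRange = ⊥ := by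
    rw [eq_bot_iff]
    rintro x ⟨⟨y, rfl⟩, hx2⟩
    have h1 : (y : Λ) ∈ (⊥ : IntermediateField K Λ) := hFD y.1 y.2 hx2
    obtain ⟨c, hc⟩ := IntermediateField.mem_bot.1 h1
    refine IntermediateField.mem_bot.2 ⟨c, ?_⟩
    show algebraMap K Ω c = j y.1
    rw [← hc, AlgHom.commutes]
  have hld : f.fieldRange.LinearDisjoint m.fieldRange := LinearDisjoint.of_inf_eq_bot hinf
  exact LinearDisjoint.isField_of_isAlgebraic' hld.symm (Or.inl inferInstance)

end Run7.h929.IG
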