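import Pool.Agent.Run7.h929.IG.Base

/-!
# Galois groups over all global function fields
-/

set_option autoImplicit false

namespace Run7.h929.IG

open Module IntermediateField
open scoped TensorProduct

/-- one power suffices, in terms of a finite extension `M` of `E` -/
theorem core {K E M G : Type} [Field K] [Field E] [Field M] [Group G] [Finite G] [Algebra K E]
    [FiniteDimensional K E] [Algebra E M] [FiniteDimensional E M] :
    ∃ k : ℕ, Occurs K (Fin k → G) →
      ∃ (L : Type) (_ : Field L) (_ : Algebra E L), FiniteDimensional E L ∧ IsGalois E L ∧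
        Nonempty ((L ≃ₐ[E] L) ≃* G) ∧ IsField (M ⊗[E] L) := by
  let _ : Algebra K M := ((algebraMap E M).comp (algebraMap K E)).toAlgebra
  have _ : IsScalarTower K E M := IsScalarTower.of_algebraMap_eq (fun _ => rfl)
  have hfd : FiniteDimensional K M := FiniteDimensional.trans K E M
  refine ⟨finrank K M, fun h => ?_⟩
  obtain ⟨F, _, _, hF1, hF2, hF3, hF4⟩ :=
    exists_disjoint (M := M) (Nat.lt_two_pow_self) h
  exact base_change hF3 hF4

/-- the roots of `X ^ Q - X` in `M ⊗ L`, where `L` is disjoint from `M` -/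
theorem root_mem {E M L : Type} [Field E] [Field M] [Field L] [Algebra E M] [Algebra E L]
    (hML : IsField (M ⊗[E] L)) {Q : ℕ} (hQ : 2 ≤ Q)
    (hs : ((Polynomial.X ^ Q - Polynomial.X : Polynomial M)).Splits) {y : L} (hy : y ^ Q = y) :
    y ∈ Set.range (algebraMap E L) := by
  have hdom : IsDomain (M ⊗[E] L) := hML.isDomain
  have hm : (Polynomial.X ^ Q - Polynomial.X : Polynomial M).Monic :=
    Polynomial.monic_X_pow_sub (by rw [Polynomial.degree_X]; exact_mod_cast hQ)
  have h1 := hs.eq_prod_roots_of_monic hm
  have h2 := congrArg (Polynomial.aeval ((1 : M) ⊗ₜ[E] y)) h1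
  rw [map_sub, map_pow, Polynomial.aeval_X, Algebra.TensorProduct.tmul_pow, one_pow, hy, sub_self,
    map_multiset_prod, Multiset.map_map] at h2
  have h3 := Multiset.prod_eq_zero_iff.1 h2.symm
  obtain ⟨r, -, hr⟩ := Multiset.mem_map.1 h3
  simp only [Function.comp_apply, map_sub, Polynomial.aeval_X, Polynomial.aeval_C] at hr
  rw [sub_eq_zero] at hr
  exact mem_base (r := r) hr

/-- The group `G` occurs over `E` in the strong form with respect to `M`: there is a finite Galois
extension `L` of `E` with group `G` such that `M ⊗ L` is a field (`L` and `M` are linearly disjoint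
over `E`), and all elements of `L` which are algebraic over the prime field (`y ^ n = y` for some
`n ≥ 2`) are in `E`. -/
def Strong (E M G : Type) [Field E] [Field M] [Algebra E M] [Group G] : Prop :=
  ∃ (L : Type) (_ : Field L) (_ : Algebra E L), FiniteDimensional E L ∧ IsGalois E L ∧
    Nonempty ((L ≃ₐ[E] L) ≃* G) ∧ IsField (M ⊗[E] L) ∧
    ∀ (y : L) (n : ℕ), 2 ≤ n → y ^ n = y → y ∈ Set.range (algebraMap E L)

theorem strong {κ E M G : Type} [Field κ] [Finite κ] [Field E] [Field M] [Group G] [Finite G]
    [Algebra (RatFunc κ) E] [FiniteDimensional (RatFunc κ) E] [Algebra E M]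
    [FiniteDimensional E M] : ∃ k : ℕ, Occurs (RatFunc κ) (Fin k → G) → Strong E M G := by
  classical
  set Q : ℕ := Nat.card κ ^ (finrank (RatFunc κ) E * Nat.card G).factorial with hQdef
  have hQ : 2 ≤ Q := by
    have h1 : 2 ≤ Nat.card κ := by
      have := Finite.one_lt_card (α := κ)
      omega
    calc 2 ≤ Nat.card κ := h1
      _ ≤ Q := Nat.le_self_pow (Nat.factorial_ne_zero _) _
  let f : Polynomial M := Polynomial.X ^ Q - Polynomial.X
  let M' := f.SplittingField
  have hfd : FiniteDimensional E M' := FiniteDimensional.trans E M M'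
  obtain ⟨k, hk⟩ := core (K := RatFunc κ) (E := E) (M := M') (G := G)
  refine ⟨k, fun h => ?_⟩
  obtain ⟨L, _, _, h1, h2, ⟨γ⟩, h4⟩ := hk h
  have hdom' : IsDomain (M' ⊗[E] L) := h4.isDomain
  have hdom : IsDomain (M ⊗[E] L) :=
    Function.Injective.isDomain
      (Algebra.TensorProduct.map (IsScalarTower.toAlgHom E M M') (AlgHom.id E L)).toRingHom
      (tensor_injective (IsScalarTower.toAlgHom E M M'))
  have hfield : IsField (M ⊗[E] L) :=
    Algebra.TensorProduct.isField_of_isAlgebraic E M L (Or.inl inferInstance)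
  refine ⟨L, inferInstance, inferInstance, h1, h2, ⟨γ⟩, hfield, ?_⟩
  intro y n hn hy
  have hs : ((Polynomial.X ^ Q - Polynomial.X : Polynomial M')).Splits := by
    have h5 := Polynomial.SplittingField.splits f
    have h6 : f.map (algebraMap M M') = Polynomial.X ^ Q - Polynomial.X := by
      rw [Polynomial.map_sub, Polynomial.map_pow, Polynomial.map_X]
    rwa [h6] at h5
  apply root_mem h4 hQ hs
  let _ : Algebra (RatFunc κ) L :=
    ((algebraMap E L).comp (algebraMap (RatFunc κ) E)).toAlgebra
  have _ : IsScalarTower (RatFunc κ) E L := IsScalarTower.of_algebraMap_eq (fun _ => rfl)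
  have hfdL : FiniteDimensional (RatFunc κ) L := FiniteDimensional.trans (RatFunc κ) E L
  have hrk : finrank (RatFunc κ) L = finrank (RatFunc κ) E * Nat.card G := by
    rw [← finrank_mul_finrank (RatFunc κ) E L, ← IsGalois.card_aut_eq_finrank E L,
      Nat.card_congr γ.toEquiv]
  have h7 := const_bound (κ := κ) hn hy
  rw [hrk] at h7
  exact h7

end Run7.h929.IG
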