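import Pool.Agent.Run7.h929.IG.Art
import Pool.Agent.Run7.h929.IG.Main

/-!
# Galois groups over all extensions with a finite relative algebraic closure
-/

set_option autoImplicit false

namespace Run7.h929.IG

open Module IntermediateField
open scoped TensorProduct

/-- base change to an extension `E` which need not be algebraic -/
theorem base_change2 {K E M F G : Type} [Field K] [Field E] [Field M] [Field F] [Group G]
    [Finite G] [Algebra K E] [Algebra E M] [Algebra K M] [IsScalarTower K E M] [Algebra K F]
    [FiniteDimensional K F] [IsGalois K F]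
    (hG : Nonempty ((F ≃ₐ[K] F) ≃* G)) (hMF : IsField (M ⊗[K] F)) :
    ∃ (L : Type) (_ : Field L) (_ : Algebra E L), FiniteDimensional E L ∧ IsGalois E L ∧
      Nonempty ((L ≃ₐ[E] L) ≃* G) ∧ IsField (M ⊗[E] L) := by
  classical
  obtain ⟨γ⟩ := hG
  have hdomM : IsDomain (M ⊗[K] F) := hMF.isDomain
  have hdom : IsDomain (E ⊗[K] F) :=
    Function.Injective.isDomain
      (Algebra.TensorProduct.map (IsScalarTower.toAlgHom K E M) (AlgHom.id K F)).toRingHom
      (tensor_injective (IsScalarTower.toAlgHom K E M))
  have hfield : IsField (E ⊗[K] F) :=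
    Algebra.TensorProduct.isField_of_isAlgebraic K E F (Or.inr inferInstance)
  let L := FractionRing (E ⊗[K] F)
  have hbij : Function.Bijective (algebraMap (E ⊗[K] F) L) :=
    IsField.localization_map_bijective (M := nonZeroDivisors (E ⊗[K] F))
      (fun h => zero_notMem_nonZeroDivisors h) hfield
  let e : (E ⊗[K] F) ≃ₐ[E] L :=
    AlgEquiv.ofBijective (IsScalarTower.toAlgHom E (E ⊗[K] F) L) hbij
  have hfd : FiniteDimensional E L := e.toLinearEquiv.finiteDimensional
  have hrank : finrank E L = finrank K F := by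
    rw [← e.toLinearEquiv.finrank_eq, Module.finrank_baseChange]
  let ψ : (F ≃ₐ[K] F) →* ((E ⊗[K] F) ≃ₐ[E] (E ⊗[K] F)) :=
    { toFun := fun σ => Algebra.TensorProduct.congr (AlgEquiv.refl : E ≃ₐ[E] E) σ
      map_one' := by
        apply AlgEquiv.ext
        intro x
        induction x using TensorProduct.induction_on with
        | zero => rw [map_zero, map_zero]
        | tmul a b => rfl
        | add a b ha hb => rw [map_add, map_add, ha, hb]
      map_mul' := fun σ τ => by
        apply AlgEquiv.ext
        intro x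
        induction x using TensorProduct.induction_on with
        | zero => rw [map_zero, map_zero]
        | tmul a b => rfl
        | add a b ha hb => rw [map_add, map_add, ha, hb] }
  have hψ : Function.Injective ψ := by
    intro σ τ h
    apply AlgEquiv.ext
    intro x
    have h1 : ψ σ ((1 : E) ⊗ₜ[K] x) = ψ τ ((1 : E) ⊗ₜ[K] x) := by rw [h]
    have h2 : ∀ ρ : F ≃ₐ[K] F, ψ ρ ((1 : E) ⊗ₜ[K] x) = (1 : E) ⊗ₜ[K] ρ x := fun ρ => rfl
    rw [h2, h2] at h1
    exact (Algebra.TensorProduct.includeRight (R := K) (A := E) (B := F)).injective h1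
  let χ : (F ≃ₐ[K] F) →* (L ≃ₐ[E] L) := (AlgEquiv.autCongr e).toMonoidHom.comp ψ
  have hχ : Function.Injective χ := (AlgEquiv.autCongr e).injective.comp hψ
  have hcard : Nat.card (F ≃ₐ[K] F) = finrank E L := by
    rw [hrank, IsGalois.card_aut_eq_finrank K F]
  have hle : Nat.card (L ≃ₐ[E] L) ≤ Nat.card (F ≃ₐ[K] F) := by
    rw [hcard, Nat.card_eq_fintype_card]
    exact AlgEquiv.card_le
  have hge : Nat.card (F ≃ₐ[K] F) ≤ Nat.card (L ≃ₐ[E] L) := Nat.card_le_card_of_injective χ hχ
  have hχb : Function.Bijective χ :=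
    (Nat.bijective_iff_injective_and_card χ).2 ⟨hχ, le_antisymm hge hle⟩
  refine ⟨L, inferInstance, inferInstance, hfd, ?_, ⟨(MulEquiv.ofBijective χ hχb).symm.trans γ⟩, ?_⟩
  · apply IsGalois.of_card_aut_eq_finrank
    rw [← hcard]
    exact le_antisymm hle hge
  · have e1 : (M ⊗[E] (E ⊗[K] F)) ≃ₐ[M] M ⊗[K] F :=
      Algebra.TensorProduct.cancelBaseChange K E M M F
    have e2 : (M ⊗[E] (E ⊗[K] F)) ≃ₐ[M] M ⊗[E] L :=
      Algebra.TensorProduct.congr AlgEquiv.refl e
    exact (e2.symm.trans e1).toMulEquiv.isField hMF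

theorem fin_sub (K E M : Type) [Field K] [Field E] [Field M] [Algebra K E] [Algebra E M]
    [Algebra K M] [IsScalarTower K E M] [FiniteDimensional K (algebraicClosure K M)] :
    FiniteDimensional K (algebraicClosure K E) := by
  let m : E →ₐ[K] M := IsScalarTower.toAlgHom K E M
  have h3 : ∀ x : algebraicClosure K E, m x.1 ∈ algebraicClosure K M := by
    intro x
    rw [mem_algebraicClosure_iff]
    exact (mem_algebraicClosure_iff.1 x.2).algHom m
  let f : algebraicClosure K E →ₗ[K] algebraicClosure K M :=
    { toFun := fun x => ⟨m x.1, h3 x⟩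
      map_add' := fun x y => Subtype.ext (map_add m x.1 y.1)
      map_smul' := fun c x => Subtype.ext (map_smul m c x.1) }
  refine FiniteDimensional.of_injective f ?_
  intro x y e
  exact Subtype.ext (m.injective (congrArg Subtype.val e))

theorem strong_gen {κ E M G : Type} [Field κ] [Finite κ] [Field E] [Field M] [Group G] [Finite G]
    [Algebra (RatFunc κ) E] [Algebra E M] [Algebra (RatFunc κ) M] [IsScalarTower (RatFunc κ) E M]
    [FiniteDimensional (RatFunc κ) (algebraicClosure (RatFunc κ) M)] :
    ∃ k : ℕ, Occurs (RatFunc κ) (Fin k → G) → Strong E M G := by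
  classical
  have hE0 : FiniteDimensional (RatFunc κ) (algebraicClosure (RatFunc κ) E) :=
    fin_sub (RatFunc κ) E M
  set D : ℕ := Nat.card G * finrank (RatFunc κ) (algebraicClosure (RatFunc κ) E) with hDdef
  set Q : ℕ := Nat.card κ ^ D.factorial with hQdef
  have hQ : 2 ≤ Q := by
    have h1 : 2 ≤ Nat.card κ := by
      have := Finite.one_lt_card (α := κ)
      omega
    calc 2 ≤ Nat.card κ := h1
      _ ≤ Q := Nat.le_self_pow (Nat.factorial_ne_zero _) _
  let f : Polynomial M := Polynomial.X ^ Q - Polynomial.X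
  have hQ0 : ((Q : ℕ) : M) = 0 := by
    let _ : Fintype κ := Fintype.ofFinite κ
    have h1 : ((Nat.card κ : ℕ) : κ) = 0 := by
      rw [Nat.card_eq_fintype_card]
      exact Nat.cast_card_eq_zero κ
    have h2 : ((Nat.card κ : ℕ) : M) = 0 := by
      have h3 := congrArg (algebraMap (RatFunc κ) M) (congrArg (algebraMap κ (RatFunc κ)) h1)
      rwa [map_natCast, map_natCast, map_zero, map_zero] at h3
    rw [hQdef, Nat.cast_pow, h2, zero_pow (Nat.factorial_ne_zero _)]
  have hsep : f.Separable := by
    have h1 : Polynomial.derivative f = -1 := by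
      show Polynomial.derivative (Polynomial.X ^ Q - Polynomial.X : Polynomial M) = -1
      rw [Polynomial.derivative_sub, Polynomial.derivative_X_pow, Polynomial.derivative_X, hQ0,
        Polynomial.C_0, zero_mul, zero_sub]
    show IsCoprime f (Polynomial.derivative f)
    rw [h1]
    exact isCoprime_one_right.neg_right
  let M' := f.SplittingField
  have hG : IsGalois M M' := IsGalois.of_separable_splitting_field (p := f) hsep
  have hfdM : FiniteDimensional M M' := Polynomial.IsSplittingField.finiteDimensional M' f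
  have hM0 := (fin_closure (K := RatFunc κ) (M := M) (M' := M')).1
  have htow : IsScalarTower (RatFunc κ) E M' := by
    refine IsScalarTower.of_algebraMap_eq (fun x => ?_)
    rw [IsScalarTower.algebraMap_apply (RatFunc κ) M M', IsScalarTower.algebraMap_apply E M M',
      ← IsScalarTower.algebraMap_apply (RatFunc κ) E M]
  refine ⟨finrank (RatFunc κ) (algebraicClosure (RatFunc κ) M'), fun h => ?_⟩
  obtain ⟨F, _, _, hF1, hF2, hF3, hF4⟩ := exists_disjoint' (M := M') (Nat.lt_two_pow_self) h
  obtain ⟨L, _, _, h1, h2, ⟨γ⟩, h4⟩ := base_change2 (E := E) hF3 hF4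
  have hdom' : IsDomain (M' ⊗[E] L) := h4.isDomain
  have hdom : IsDomain (M ⊗[E] L) :=
    Function.Injective.isDomain
      (Algebra.TensorProduct.map (IsScalarTower.toAlgHom E M M') (AlgHom.id E L)).toRingHom
      (tensor_injective (IsScalarTower.toAlgHom E M M'))
  have hfield : IsField (M ⊗[E] L) :=
    Algebra.TensorProduct.isField_of_isAlgebraic E M L (Or.inr inferInstance)
  refine ⟨L, inferInstance, inferInstance, h1, h2, ⟨γ⟩, hfield, ?_⟩
  intro y n hn hy
  have hs : ((Polynomial.X ^ Q - Polynomial.X : Polynomial M')).Splits := by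
    have h5 := Polynomial.SplittingField.splits f
    have h6 : f.map (algebraMap M M') = Polynomial.X ^ Q - Polynomial.X := by
      rw [Polynomial.map_sub, Polynomial.map_pow, Polynomial.map_X]
    rwa [h6] at h5
  apply root_mem h4 hQ hs
  let _ : Algebra (RatFunc κ) L :=
    ((algebraMap E L).comp (algebraMap (RatFunc κ) E)).toAlgebra
  have _ : IsScalarTower (RatFunc κ) E L := IsScalarTower.of_algebraMap_eq (fun _ => rfl)
  obtain ⟨hL0, hLle⟩ := fin_closure (K := RatFunc κ) (M := E) (M' := L)
  rw [Nat.card_congr γ.toEquiv] at hLle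
  exact const_bound' (κ := κ) hLle hn hy

end Run7.h929.IG
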