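import Pool.Agent.Run7.h929.IG.Base

/-!
# Galois groups over extensions which are not algebraic
-/

set_option autoImplicit false

namespace Run7.h929.IG

open Module IntermediateField
open scoped TensorProduct

/-- a finite Galois extension which meets `M` only in `K` is linearly disjoint from `M` -/
theorem disjoint_field {K F M : Type} [Field K] [Field F] [Field M] [Algebra K F]
    [FiniteDimensional K F] [IsGalois K F] [Algebra K M] (f : F →ₐ[K] AlgebraicClosure M)
    (h : ∀ x : F, f x ∈ Set.range (algebraMap M (AlgebraicClosure M)) →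
      x ∈ Set.range (algebraMap K F)) : IsField (M ⊗[K] F) := by
  classical
  obtain ⟨P, hPs, hPspl⟩ := IsGalois.is_separable_splitting_field K F
  let Ω := AlgebraicClosure M
  let PM : Polynomial M := P.map (algebraMap K M)
  let T : IntermediateField M Ω := IntermediateField.adjoin M (PM.rootSet Ω)
  have hsplT : Polynomial.IsSplittingField M T PM :=
    IntermediateField.adjoin_rootSet_isSplittingField (IsAlgClosed.splits _)
  have hTfd : FiniteDimensional M T := Polynomial.IsSplittingField.finiteDimensional T PM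
  have hTG : IsGalois M T := IsGalois.of_separable_splitting_field (p := PM) hPs.map
  have hroot : ∀ y : Ω, Polynomial.aeval y P = 0 → y ∈ T := by
    intro y hy
    apply IntermediateField.subset_adjoin
    rw [Polynomial.mem_rootSet]
    refine ⟨(Polynomial.map_ne_zero_iff (algebraMap K M).injective).2 hPs.ne_zero, ?_⟩
    rw [Polynomial.aeval_map_algebraMap]
    exact hy
  have hfT : ∀ x : F, f x ∈ T := by
    intro x
    have hx : x ∈ Algebra.adjoin K (P.rootSet F) := by
      rw [hPspl.adjoin_rootSet']
      exact Algebra.mem_top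
    induction hx using Algebra.adjoin_induction with
    | mem y hy =>
      apply hroot
      rw [Polynomial.aeval_algHom_apply, (Polynomial.mem_rootSet.1 hy).2, map_zero]
    | algebraMap c =>
      rw [AlgHom.commutes, IsScalarTower.algebraMap_apply K M Ω]
      exact T.algebraMap_mem _
    | add y z _ _ hy hz => rw [map_add]; exact add_mem hy hz
    | mul y z _ _ hy hz => rw [map_mul]; exact mul_mem hy hz
  let f' : F →ₐ[K] T :=
    { toFun := fun x => ⟨f x, hfT x⟩
      map_one' := Subtype.ext (map_one f)
      map_mul' := fun x y => Subtype.ext (map_mul f x y)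
      map_zero' := Subtype.ext (map_zero f)
      map_add' := fun x y => Subtype.ext (map_add f x y)
      commutes' := fun c => Subtype.ext (by
        show f (algebraMap K F c) = _
        rw [AlgHom.commutes]
        rfl) }
  let _ : Algebra F T := f'.toRingHom.toAlgebra
  have _ : IsScalarTower K F T := IsScalarTower.of_algebraMap_eq (fun c => (f'.commutes c).symm)
  -- the restriction of the automorphisms of `T` is surjective
  let ρ : (T ≃ₐ[M] T) →* (F ≃ₐ[K] F) := IntermediateField.restrictRestrictAlgEquivMapHom K F M T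
  have hρ : ∀ (σ : T ≃ₐ[M] T) (x : F), f' (ρ σ x) = σ (f' x) := by
    intro σ x
    exact AlgEquiv.restrictNormal_commutes (MulSemiringAction.toAlgAut (T ≃ₐ[M] T) K T σ) F x
  have hfix : fixedField ρ.range = ⊥ := by
    rw [eq_bot_iff]
    intro x hx
    rw [mem_fixedField_iff] at hx
    have h1 : f' x ∈ (⊥ : IntermediateField M T) := by
      rw [IsGalois.mem_bot_iff_fixed]
      intro σ
      rw [← hρ, hx (ρ σ) ⟨σ, rfl⟩]
    obtain ⟨c, hc⟩ := IntermediateField.mem_bot.1 h1
    obtain ⟨d, hd⟩ := h x ⟨c, congrArg Subtype.val hc⟩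
    exact IntermediateField.mem_bot.2 ⟨d, hd⟩
  have hsurj : ρ.range = ⊤ := by
    rw [← IntermediateField.fixingSubgroup_fixedField ρ.range, hfix, IntermediateField.fixingSubgroup_bot]
  have hcard : Nat.card (F ≃ₐ[K] F) ≤ Nat.card (T ≃ₐ[M] T) :=
    Nat.card_le_card_of_surjective ρ (MonoidHom.range_eq_top.1 hsurj)
  rw [IsGalois.card_aut_eq_finrank, IsGalois.card_aut_eq_finrank] at hcard
  -- the product map
  let μ : (M ⊗[K] F) →ₐ[M] T :=
    Algebra.TensorProduct.lift (Algebra.ofId M T) f' (fun _ _ => Commute.all _ _)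
  have hμ : Function.Surjective μ := by
    have h1 : (⊤ : Subalgebra M T) ≤ μ.range := by
      rw [← hsplT.adjoin_rootSet', Algebra.adjoin_le_iff]
      intro y hy
      have h2 : Polynomial.aeval y P = 0 := by
        have h3 := (Polynomial.mem_rootSet.1 hy).2
        rwa [Polynomial.aeval_map_algebraMap] at h3
      -- `y` is the image of a root in `F`
      have h5 : y ∈ P.rootSet T := by
        rw [Polynomial.mem_rootSet]
        exact ⟨hPs.ne_zero, h2⟩
      rw [← hPspl.splits'.image_rootSet f'] at h5
      obtain ⟨z, -, hz⟩ := h5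
      refine ⟨(1 : M) ⊗ₜ[K] z, ?_⟩
      rw [← hz]
      show μ ((1 : M) ⊗ₜ[K] z) = f' z
      rw [Algebra.TensorProduct.lift_tmul, map_one, one_mul]
    intro t
    exact h1 (Algebra.mem_top : t ∈ (⊤ : Subalgebra M T))
  have hle : finrank M T ≤ finrank M (M ⊗[K] F) := LinearMap.finrank_le_finrank_of_surjective
    (f := μ.toLinearMap) hμ
  have heq : finrank M (M ⊗[K] F) = finrank M T := by
    refine le_antisymm ?_ hle
    rw [Module.finrank_baseChange]
    exact hcard
  have hinj : Function.Injective μ :=
    (LinearMap.injective_iff_surjective_of_finrank_eq_finrank (f := μ.toLinearMap) heq).2 hμ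
  exact (AlgEquiv.ofBijective μ ⟨hinj, hμ⟩).toMulEquiv.isField (Field.toIsField _)

/-- base change to an extension `E` which is not algebraic -/
theorem base_change' {K E F G : Type} [Field K] [Field E] [Field F] [Group G]
    [Finite G] [Algebra K E] [Algebra K F] [FiniteDimensional K F] [IsGalois K F]
    (hG : Nonempty ((F ≃ₐ[K] F) ≃* G)) (hfield : IsField (E ⊗[K] F)) :
    ∃ (L : Type) (_ : Field L) (_ : Algebra E L), FiniteDimensional E L ∧ IsGalois E L ∧
      Nonempty ((L ≃ₐ[E] L) ≃* G) ∧ IsField (E ⊗[E] L) := by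
  classical
  obtain ⟨γ⟩ := hG
  have hdom : IsDomain (E ⊗[K] F) := hfield.isDomain
  let L := FractionRing (E ⊗[K] F)
  have hbij : Function.Bijective (algebraMap (E ⊗[K] F) L) :=
    IsField.localization_map_bijective (M := nonZeroDivisors (E ⊗[K] F))
      (fun h => zero_notMem_nonZeroDivisors h) hfield
  let e : (E ⊗[K] F) ≃ₐ[E] L :=
    AlgEquiv.ofBijective (IsScalarTower.toAlgHom E (E ⊗[K] F) L) hbij
  have hfd : FiniteDimensional E L := e.toLinearEquiv.finiteDimensional
  have hrank : finrank E L = finrank K F := by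
    rw [← e.toLinearEquiv.finrank_eq, Module.finrank_baseChange]
  let ψ : (F ≃ₐ[K] F) →* ((E ⊗[K] F) ≃ₐ[E] (E ⊗[K] F)) :=
    { toFun := fun σ => Algebra.TensorProduct.congr (AlgEquiv.refl : E ≃ₐ[E] E) σ
      map_one' := by
        apply AlgEquiv.ext
        intro x
        induction x using TensorProduct.induction_on with
        | zero => rw [map_zero, map_zero]
        | tmul a b => rfl
        | add a b ha hb => rw [map_add, map_add, ha, hb]
      map_mul' := fun σ τ => by
        apply AlgEquiv.ext
        intro x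
        induction x using TensorProduct.induction_on with
        | zero => rw [map_zero, map_zero]
        | tmul a b => rfl
        | add a b ha hb => rw [map_add, map_add, ha, hb] }
  have hψ : Function.Injective ψ := by
    intro σ τ h
    apply AlgEquiv.ext
    intro x
    have h1 : ψ σ ((1 : E) ⊗ₜ[K] x) = ψ τ ((1 : E) ⊗ₜ[K] x) := by rw [h]
    have h2 : ∀ ρ : F ≃ₐ[K] F, ψ ρ ((1 : E) ⊗ₜ[K] x) = (1 : E) ⊗ₜ[K] ρ x := fun ρ => rfl
    rw [h2, h2] at h1
    exact (Algebra.TensorProduct.includeRight (R := K) (A := E) (B := F)).injective h1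
  let χ : (F ≃ₐ[K] F) →* (L ≃ₐ[E] L) := (AlgEquiv.autCongr e).toMonoidHom.comp ψ
  have hχ : Function.Injective χ := (AlgEquiv.autCongr e).injective.comp hψ
  have hcard : Nat.card (F ≃ₐ[K] F) = finrank E L := by
    rw [hrank, IsGalois.card_aut_eq_finrank K F]
  have hle : Nat.card (L ≃ₐ[E] L) ≤ Nat.card (F ≃ₐ[K] F) := by
    rw [hcard, Nat.card_eq_fintype_card]
    exact AlgEquiv.card_le
  have hge : Nat.card (F ≃ₐ[K] F) ≤ Nat.card (L ≃ₐ[E] L) := Nat.card_le_card_of_injective χ hχ
  have hχb : Function.Bijective χ :=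
    (Nat.bijective_iff_injective_and_card χ).2 ⟨hχ, le_antisymm hge hle⟩
  refine ⟨L, inferInstance, inferInstance, hfd, ?_, ⟨(MulEquiv.ofBijective χ hχb).symm.trans γ⟩, ?_⟩
  · apply IsGalois.of_card_aut_eq_finrank
    rw [← hcard]
    exact le_antisymm hle hge
  · exact (Algebra.TensorProduct.lid E L).toMulEquiv.isField (Field.toIsField _)

/-- One of the `k` extensions is linearly disjoint from `M`; only the elements of `M` which are
algebraic over `K` have to form a finite extension of `K`. -/
theorem exists_disjoint' {K G M : Type} [Field K] [Group G] [Finite G] [Field M] [Algebra K M]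
    [FiniteDimensional K (algebraicClosure K M)] {k : ℕ}
    (hk : finrank K (algebraicClosure K M) < 2 ^ k) (h : Occurs K (Fin k → G)) :
    ∃ (F : Type) (_ : Field F) (_ : Algebra K F), FiniteDimensional K F ∧ IsGalois K F ∧
      Nonempty ((F ≃ₐ[K] F) ≃* G) ∧ IsField (M ⊗[K] F) := by
  obtain ⟨Λ, _, _, _, _, ⟨φ⟩⟩ := h
  let Ω := AlgebraicClosure M
  let A := AlgebraicClosure K
  -- an algebraic closure of `K` in `Ω`
  let j : Λ →ₐ[K] Ω := IsAlgClosed.lift
  let m : M →ₐ[K] Ω := IsScalarTower.toAlgHom K M Ω
  let D : IntermediateField K Λ := m.fieldRange.comap j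
  have hD : finrank K D ≤ finrank K (algebraicClosure K M) := by
    have h2 : ∀ x : D, j x.1 ∈ m.fieldRange := fun x => x.2
    let e : M ≃ₐ[K] m.fieldRange := AlgEquiv.ofInjectiveField m
    have he : ∀ z : m.fieldRange, m (e.symm z) = z.1 := by
      intro z
      have h3 : e (e.symm z) = z := e.apply_symm_apply z
      exact congrArg Subtype.val h3
    have h3 : ∀ x : D, e.symm ⟨j x.1, h2 x⟩ ∈ algebraicClosure K M := by
      intro x
      rw [mem_algebraicClosure_iff]
      have h4 : IsAlgebraic K (m (e.symm ⟨j x.1, h2 x⟩)) := by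
        rw [he]
        exact (Algebra.IsAlgebraic.isAlgebraic x.1).algHom j
      exact (isAlgebraic_algHom_iff m m.injective).1 h4
    let f : D →ₗ[K] algebraicClosure K M :=
      { toFun := fun x => ⟨e.symm ⟨j x.1, h2 x⟩, h3 x⟩
        map_add' := fun x y => Subtype.ext (m.injective (by
          show m (e.symm _) = m (e.symm _ + e.symm _)
          rw [map_add, he, he, he]
          exact map_add j x.1 y.1))
        map_smul' := fun c x => Subtype.ext (m.injective (by
          show m (e.symm _) = m (c • e.symm _)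
          rw [map_smul, he, he]
          exact map_smul j c x.1)) }
    refine LinearMap.finrank_le_finrank_of_injective (f := f) ?_
    intro x y exy
    apply Subtype.ext
    have h5 : e.symm ⟨j x.1, h2 x⟩ = e.symm ⟨j y.1, h2 y⟩ := congrArg Subtype.val exy
    have h6 := e.symm.injective h5
    exact j.injective (congrArg Subtype.val h6)
  have hidx : (D.fixingSubgroup.map φ.toMonoidHom).index < 2 ^ k := by
    have h1 : (D.fixingSubgroup.map φ.toMonoidHom).index = D.fixingSubgroup.index :=
      Subgroup.index_map_of_bijective φ.bijective _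
    have h2 : D.fixingSubgroup.index = finrank K D := by
      have h3 := D.fixingSubgroup.index_mul_card
      have h4 : Nat.card D.fixingSubgroup = finrank D Λ := IsGalois.card_fixingSubgroup_eq_finrank D
      have h5 : Nat.card (Λ ≃ₐ[K] Λ) = finrank K Λ := IsGalois.card_aut_eq_finrank K Λ
      rw [h4, h5, ← finrank_mul_finrank K D Λ] at h3
      exact Nat.eq_of_mul_eq_mul_right finrank_pos h3
    rw [h1, h2]
    exact hD.trans_lt hk
  obtain ⟨i, hi⟩ := pigeon _ hidx
  let π : (Λ ≃ₐ[K] Λ) →* G := (Pi.evalMonoidHom (fun _ : Fin k => G) i).comp φ.toMonoidHom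
  have hπ : Function.Surjective π := by
    intro g
    obtain ⟨x, hx⟩ := φ.surjective (fun _ => g)
    refine ⟨x, ?_⟩
    show φ x i = g
    rw [hx]
  let F : IntermediateField K Λ := fixedField π.ker
  have hFn : IsGalois K F := IsGalois.of_fixedField_normal_subgroup π.ker
  have hFe : Nonempty ((F ≃ₐ[K] F) ≃* G) :=
    ⟨(IsGalois.normalAutEquivQuotient π.ker).symm.trans
      (QuotientGroup.quotientKerEquivOfSurjective π hπ)⟩
  have hFD : ∀ x, x ∈ F → x ∈ D → x ∈ (⊥ : IntermediateField K Λ) := by
    intro x hxF hxD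
    rw [IsGalois.mem_bot_iff_fixed]
    intro σ
    have h1 : π σ ∈ (D.fixingSubgroup.map φ.toMonoidHom).map
        (Pi.evalMonoidHom (fun _ : Fin k => G) i) := by
      rw [hi]
      exact Subgroup.mem_top _
    obtain ⟨_, ⟨τ, hτ, rfl⟩, hτ2⟩ := h1
    have h2 : τ⁻¹ * σ ∈ π.ker := by
      rw [MonoidHom.mem_ker, map_mul, map_inv]
      have h3 : π τ = π σ := hτ2
      rw [h3, inv_mul_cancel]
    have h3 : (τ⁻¹ * σ) x = x := (mem_fixedField_iff _ _).1 hxF _ h2
    have h4 : τ x = x := (IntermediateField.mem_fixingSubgroup_iff _ _).1 hτ x hxD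
    have h5 : τ ((τ⁻¹ * σ) x) = σ x := by
      rw [← AlgEquiv.mul_apply, mul_inv_cancel_left]
    rw [← h5, h3, h4]
  refine ⟨F, inferInstance, inferInstance, inferInstance, hFn, hFe, ?_⟩
  refine disjoint_field (j.comp F.val) ?_
  rintro x ⟨c, hc⟩
  have h1 : (x : Λ) ∈ (⊥ : IntermediateField K Λ) := hFD x.1 x.2 ⟨c, hc⟩
  obtain ⟨d, hd⟩ := IntermediateField.mem_bot.1 h1
  exact ⟨d, Subtype.ext hd⟩

/-- `E` is any extension of `K` in which the elements algebraic over `K` form a finite extension. -/
theorem occurs_over {K E G : Type} [Field K] [Field E] [Group G] [Finite G] [Algebra K E]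
    [FiniteDimensional K (algebraicClosure K E)] :
    ∃ k : ℕ, Occurs K (Fin k → G) → Occurs E G := by
  refine ⟨finrank K (algebraicClosure K E), fun h => ?_⟩
  obtain ⟨F, _, _, hF1, hF2, hF3, hF4⟩ := exists_disjoint' (M := E) (Nat.lt_two_pow_self) h
  obtain ⟨L, _, _, h1, h2, h3, -⟩ := base_change' (E := E) hF3 hF4
  exact ⟨L, inferInstance, inferInstance, h1, h2, h3⟩

end Run7.h929.IG
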